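import Mathlib
import Pool.Agent.R479.DA.Lim

/-!
# Thin sets near the values of sequences of nonlinear functions of a real parameter

Let `S` be a set of objects with heights `h x`, `O (X ^ (s + ε))` of them of height at most `X`, and let
`g_k` be functions on `(a, b)` with `g_k(t') - g_k(t) ≥ c g_k(t) (t' - t)` for `t < t'` and
`g_k ≥ u_k`, where `∑ u_k ^ (-η)` converges for all `η > τ`. Then the set of the `t` in `(a, b)` such that for some
`B` and infinitely many `k` there is an object with `|h x - g_k(t)| ≤ B g_k(t) ^ θ` has Hausdorff dimension at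
most `(s + τ) / (1 - θ)`. Examples are `k ^ t`, `t ^ k`, `t ^ (3 ^ k)`.
-/

set_option autoImplicit false

namespace Pool.Agent.K6.H61.PW

open Filter Topology MeasureTheory Set
open scoped ENNReal NNReal

/-- a limsup set of small sets -/
theorem hausdorff_zero {ι : Type} [Countable ι] (A : ι → Set ℝ) {D : ℝ} (hD : 0 < D)
    (hsum : ∑' i, Metric.ediam (A i) ^ D ≠ ⊤) (L : Set ℝ)
    (hL : ∀ t ∈ L, {i | t ∈ A i}.Infinite) : μH[D] L = 0 := by
  classical
  have htail := ENNReal.tendsto_tsum_compl_atTop_zero hsum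
  set tail : Finset ι → ℝ≥0∞ := fun F => ∑' i : {i // i ∉ F}, Metric.ediam (A i) ^ D with htl
  have hr : Tendsto (fun F => tail F ^ (1 / D)) atTop (𝓝 0) := by
    have h1 : Tendsto (fun x : ℝ≥0∞ => x ^ (1 / D)) (𝓝 0) (𝓝 (0 ^ (1 / D))) :=
      (ENNReal.continuous_rpow_const).tendsto 0
    rw [ENNReal.zero_rpow_of_pos (by positivity)] at h1
    exact h1.comp htail
  have h2 := Measure.hausdorffMeasure_le_liminf_tsum (X := ℝ) (ι := fun F : Finset ι => {i // i ∉ F})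
    D L (fun F => tail F ^ (1 / D)) hr (fun F i => A i) (Eventually.of_forall fun F i => by
      have h3 : Metric.ediam (A i) ^ D ≤ tail F :=
        ENNReal.le_tsum (f := fun i : {i // i ∉ F} => Metric.ediam (A i) ^ D) i
      calc Metric.ediam (A i) = (Metric.ediam (A i) ^ D) ^ (1 / D) := by
            rw [← ENNReal.rpow_mul, mul_one_div_cancel hD.ne', ENNReal.rpow_one]
        _ ≤ tail F ^ (1 / D) := ENNReal.rpow_le_rpow h3 (by positivity))
    (Eventually.of_forall fun F => by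
      intro t ht
      have hinf := hL t ht
      obtain ⟨i, hi, hiF⟩ := hinf.exists_notMem_finset F
      exact mem_iUnion.2 ⟨⟨i, hiF⟩, hi⟩)
  have h4 : liminf (fun F => tail F) atTop = 0 := htail.liminf_eq
  exact le_antisymm (h2.trans h4.le) zero_le

/-- the conditions on the functions -/
structure Family (a b c τ : ℝ) (g : ℕ → ℝ → ℝ) (u : ℕ → ℝ) : Prop where
  c_pos : 0 < c
  steep : ∀ k t t', a < t → t < t' → t' < b → c * g k t * (t' - t) ≤ g k t' - g k t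
  low : ∀ k t, a < t → t < b → u k ≤ g k t
  one : ∀ k, 1 ≤ u k
  sum : ∀ η, τ < η → Summable fun k => u k ^ (-η)

variable {T : Type} (S : Set T) (h : T → ℝ)

/-- the `t` near the heights -/
def NearT (a b θ B : ℝ) (g : ℕ → ℝ → ℝ) (k : ℕ) (x : T) : Set ℝ :=
  {t | a < t ∧ t < b ∧ |h x - g k t| ≤ B * g k t ^ θ}

lemma near_bounds {a b c τ θ B : ℝ} {g : ℕ → ℝ → ℝ} {u : ℕ → ℝ} (hg : Family a b c τ g u)
    (hθ : θ < 1) (_hB : 0 < B) {k : ℕ} (hk : 2 * B ≤ u k ^ (1 - θ)) {x : T} {t : ℝ}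
    (ht : t ∈ NearT h a b θ B g k x) : g k t ≤ 2 * h x ∧ h x ≤ 2 * g k t ∧ u k ≤ 2 * h x := by
  obtain ⟨h1, h2, h3⟩ := ht
  have hu := hg.low k t h1 h2
  have h1u := hg.one k
  have hgp : 0 < g k t := by linarith
  have h4 : 2 * B ≤ g k t ^ (1 - θ) :=
    hk.trans (Real.rpow_le_rpow (by linarith) hu (by linarith))
  have h5 : B * g k t ^ θ ≤ g k t / 2 := by
    have h6 : g k t = g k t ^ (1 - θ) * g k t ^ θ := by
      rw [← Real.rpow_add hgp, sub_add_cancel, Real.rpow_one]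
    have h7 : 0 < g k t ^ θ := Real.rpow_pos_of_pos hgp _
    have h8 := mul_le_mul_of_nonneg_right h4 h7.le
    rw [← h6] at h8
    linarith
  have h6 := abs_le.1 (h3.trans h5)
  refine ⟨by linarith [h6.1, h6.2], by linarith [h6.1, h6.2], by linarith [h6.1, h6.2]⟩

lemma near_diam {a b c τ θ B : ℝ} {g : ℕ → ℝ → ℝ} {u : ℕ → ℝ} (hg : Family a b c τ g u)
    (hθ : θ < 1) (hθ0 : 0 ≤ θ) (hB : 0 < B) {k : ℕ} (hk : 2 * B ≤ u k ^ (1 - θ)) {x : T} :
    Metric.ediam (NearT h a b θ B g k x) ≤ ENNReal.ofReal (8 * B / c * h x ^ (θ - 1)) := by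
  have hc := hg.c_pos
  have key : ∀ t ∈ NearT h a b θ B g k x, ∀ t' ∈ NearT h a b θ B g k x, t < t' →
      t' - t ≤ 8 * B / c * h x ^ (θ - 1) := by
    intro t ht t' ht' htt
    obtain ⟨e1, e2, e3⟩ := near_bounds h hg hθ hB hk ht
    obtain ⟨f1, f2, -⟩ := near_bounds h hg hθ hB hk ht'
    have h1u := hg.one k
    have hhx : 0 < h x := by linarith
    have hgt : 0 < g k t := by linarith
    have hgt' : 0 < g k t' := by linarith
    have h1 := hg.steep k t t' ht.1 htt ht'.2.1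
    have h2 := abs_le.1 ht.2.2
    have h3 := abs_le.1 ht'.2.2
    have hpow : ∀ z : ℝ, 0 < z → z ≤ 2 * h x → z ^ θ ≤ 2 * h x ^ θ := by
      intro z hz hz2
      calc z ^ θ ≤ (2 * h x) ^ θ := Real.rpow_le_rpow hz.le hz2 hθ0
        _ = 2 ^ θ * h x ^ θ := Real.mul_rpow (by norm_num) hhx.le
        _ ≤ 2 * h x ^ θ := by
            apply mul_le_mul_of_nonneg_right _ (Real.rpow_nonneg hhx.le _)
            calc (2 : ℝ) ^ θ ≤ 2 ^ (1 : ℝ) :=
                  Real.rpow_le_rpow_of_exponent_le (by norm_num) hθ.le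
              _ = 2 := Real.rpow_one 2
    have h4 := mul_le_mul_of_nonneg_left (hpow _ hgt e1) hB.le
    have h5 := mul_le_mul_of_nonneg_left (hpow _ hgt' f1) hB.le
    have h6 : c * g k t * (t' - t) ≤ 4 * B * h x ^ θ := by linarith [h2.1, h2.2, h3.1, h3.2]
    have h7 : c * (h x / 2) * (t' - t) ≤ c * g k t * (t' - t) :=
      mul_le_mul_of_nonneg_right (mul_le_mul_of_nonneg_left (by linarith) hc.le) (by linarith)
    have h8 : c * (h x / 2) * (t' - t) ≤ 4 * B * h x ^ θ := h7.trans h6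
    have h9 : h x ^ (θ - 1) = h x ^ θ / h x := by
      rw [Real.rpow_sub hhx, Real.rpow_one]
    rw [h9]
    have h10 : 8 * B / c * (h x ^ θ / h x) = 4 * B * h x ^ θ / (c * (h x / 2)) := by
      field_simp
      ring
    rw [h10, le_div_iff₀ (by positivity)]
    linarith
  refine Metric.ediam_le fun t ht t' ht' => ?_
  rw [edist_dist]
  apply ENNReal.ofReal_le_ofReal
  rw [Real.dist_eq]
  rcases lt_trichotomy t t' with h1 | h1 | h1
  · rw [abs_sub_comm, abs_of_pos (by linarith)]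
    exact key t ht t' ht' h1
  · subst h1
    rw [sub_self, abs_zero]
    obtain ⟨-, -, e3⟩ := near_bounds h hg hθ hB hk ht
    have h1u := hg.one k
    have hhx : 0 < h x := by linarith
    positivity
  · rw [abs_of_pos (by linarith)]
    exact key t' ht' t ht h1

/-- the exceptional set for one constant -/
theorem dim_one {a b c τ s θ B : ℝ} {g : ℕ → ℝ → ℝ} {u : ℕ → ℝ} (hg : Family a b c τ g u)
    (hτ : 0 ≤ τ) (hs : 0 ≤ s) (hθ : θ < 1) (hθ0 : 0 ≤ θ) (hB : 0 < B)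
    (hS : ∀ ε : ℝ, 0 < ε → ∃ C : ℝ, ∀ X : ℝ, 1 ≤ X → {x | x ∈ S ∧ h x ≤ X}.Finite ∧
      ({x | x ∈ S ∧ h x ≤ X}.ncard : ℝ) ≤ C * X ^ (s + ε)) {D : ℝ} (hD : (s + τ) / (1 - θ) < D) :
    μH[D] {t : ℝ | a < t ∧ t < b ∧ ∃ᶠ k in atTop, ∃ x ∈ S, |h x - g k t| ≤ B * g k t ^ θ} = 0 := by
  classical
  have h1θ : 0 < 1 - θ := by linarith
  have hc := hg.c_pos
  have hD0 : 0 < D := lt_of_le_of_lt (by positivity) hD
  have hp : s + τ < D * (1 - θ) := by rwa [div_lt_iff₀ h1θ] at hD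
  obtain ⟨s', hs1, hs2⟩ := exists_between (show s < D * (1 - θ) - τ by linarith)
  have hs'0 : 0 < s' := by linarith
  -- the objects
  let J : Type := {x : T // x ∈ S ∧ 1 ≤ h x}
  have hJ : Summable fun x : J => h x.1 ^ (-s') := by
    obtain ⟨C, hC⟩ := hS ((s' - s) / 2) (by linarith)
    refine Pool.Agent.R479.DA.summable_heights (fun x : J => h x.1) (fun x => x.2.2)
      (s := s + (s' - s) / 2) (p := s') (C := C) (by linarith) hs'0 ?_
    intro X hX
    obtain ⟨hf, hn⟩ := hC X hX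
    have hmaps : Set.MapsTo (Subtype.val : J → T) {x : J | h x.1 ≤ X} {x | x ∈ S ∧ h x ≤ X} :=
      fun x hx => ⟨x.2.1, hx⟩
    have hinj : Set.InjOn (Subtype.val : J → T) {x : J | h x.1 ≤ X} :=
      Subtype.val_injective.injOn
    refine ⟨hf.of_injOn hmaps hinj, le_trans ?_ hn⟩
    exact_mod_cast Set.ncard_le_ncard_of_injOn _ hmaps hinj hf
  have hcount : Countable J := by
    have h1 : (Set.univ : Set J) ⊆ ⋃ n : ℕ, {x : J | h x.1 ≤ (n : ℝ)} := by
      intro x _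
      obtain ⟨n, hn⟩ := exists_nat_ge (h x.1)
      exact mem_iUnion.2 ⟨n, hn⟩
    have h2 : ∀ n : ℕ, {x : J | h x.1 ≤ (n : ℝ)}.Countable := by
      intro n
      obtain ⟨C, hC⟩ := hS 1 one_pos
      have h3 := (hC (max n 1) (le_max_right _ _)).1
      have h4 : {x : J | h x.1 ≤ (n : ℝ)} ⊆ Subtype.val ⁻¹' {x | x ∈ S ∧ h x ≤ max (n : ℝ) 1} :=
        fun x hx => ⟨x.2.1, hx.trans (le_max_left _ _)⟩
      exact ((h3.preimage Subtype.val_injective.injOn).subset h4).countable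
    exact Set.countable_univ_iff.1 ((Set.countable_iUnion h2).mono h1)
  -- large `k`
  obtain ⟨q, hq⟩ : ∃ q : ℝ, q = D * (1 - θ) - s' := ⟨_, rfl⟩
  have hq1 : τ < q := by linarith
  have hsumk : Summable fun k => u k ^ (-q) := hg.sum q hq1
  have hu0 : ∀ k, 0 < u k := fun k => lt_of_lt_of_le one_pos (hg.one k)
  have hutop : Tendsto u atTop atTop := by
    have h1 := hsumk.tendsto_atTop_zero
    rw [tendsto_atTop]
    intro M
    have hM : 0 < (max M 1) ^ (-q) := Real.rpow_pos_of_pos (by positivity) _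
    filter_upwards [(tendsto_order.1 h1).2 _ hM] with k hk
    by_contra hcon
    rw [not_le] at hcon
    have h2 : u k ≤ max M 1 := hcon.le.trans (le_max_left _ _)
    have h3 : (max M 1) ^ (-q) ≤ u k ^ (-q) :=
      Real.rpow_le_rpow_of_nonpos (hu0 k) h2 (by linarith)
    linarith
  have hlarge : ∀ᶠ k in atTop, 2 * B ≤ u k ^ (1 - θ) :=
    ((tendsto_rpow_atTop h1θ).comp hutop).eventually_ge_atTop _
  have hlarge2 : ∀ᶠ k in atTop, 2 ≤ u k := hutop.eventually_ge_atTop _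
  obtain ⟨K₀, hK₀⟩ := eventually_atTop.1 (hlarge.and hlarge2)
  let A : ℕ × J → Set ℝ := fun p => if K₀ ≤ p.1 then NearT h a b θ B g p.1 p.2.1 else ∅
  obtain ⟨Q, hQ⟩ : ∃ Q : ℝ, Q = (8 * B / c) ^ D * 2 ^ q := ⟨_, rfl⟩
  have hQ0 : 0 ≤ Q := by rw [hQ]; positivity
  have hbound : ∀ p : ℕ × J, Metric.ediam (A p) ^ D ≤
      ENNReal.ofReal (Q * (u p.1 ^ (-q) * h p.2.1 ^ (-s'))) := by
    rintro ⟨k, x⟩
    have hx1 := x.2.2
    have hx0 : 0 < h x.1 := by linarith
    by_cases hk : K₀ ≤ k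
    · show Metric.ediam (if K₀ ≤ k then NearT h a b θ B g k x.1 else ∅) ^ D ≤ _
      rw [if_pos hk]
      rcases Set.eq_empty_or_nonempty (NearT h a b θ B g k x.1) with he | ⟨t, ht⟩
      · rw [he, Metric.ediam_empty, ENNReal.zero_rpow_of_pos hD0]
        exact zero_le
      · obtain ⟨-, -, e3⟩ := near_bounds h hg hθ hB (hK₀ k hk).1 ht
        have h1 := near_diam h hg hθ hθ0 hB (hK₀ k hk).1 (x := x.1)
        refine (ENNReal.rpow_le_rpow h1 hD0.le).trans ?_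
        rw [ENNReal.ofReal_rpow_of_nonneg (by positivity) hD0.le]
        apply ENNReal.ofReal_le_ofReal
        rw [Real.mul_rpow (by positivity) (by positivity), ← Real.rpow_mul hx0.le, hQ, mul_assoc]
        apply mul_le_mul_of_nonneg_left _ (by positivity)
        have e4 : (θ - 1) * D = -s' + -q := by rw [hq]; ring
        rw [e4, Real.rpow_add hx0, ← mul_assoc, mul_comm (2 ^ q * u k ^ (-q))]
        apply mul_le_mul_of_nonneg_left _ (by positivity)
        have huk := hu0 k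
        calc h x.1 ^ (-q) ≤ (u k / 2) ^ (-q) :=
              Real.rpow_le_rpow_of_nonpos (by linarith) (by linarith) (by linarith)
          _ = 2 ^ q * u k ^ (-q) := by
              rw [Real.div_rpow huk.le (by norm_num),
                show (2 : ℝ) ^ (-q) = (2 ^ q)⁻¹ from Real.rpow_neg (by norm_num) q, div_inv_eq_mul,
                mul_comm]
    · show Metric.ediam (if K₀ ≤ k then NearT h a b θ B g k x.1 else ∅) ^ D ≤ _
      rw [if_neg hk, Metric.ediam_empty, ENNReal.zero_rpow_of_pos hD0]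
      exact zero_le
  have hsum2 : Summable fun p : ℕ × J => Q * (u p.1 ^ (-q) * h p.2.1 ^ (-s')) :=
    (hsumk.mul_of_nonneg hJ (fun k => (Real.rpow_pos_of_pos (hu0 k) _).le)
      (fun x => (Real.rpow_pos_of_pos (by have := x.2.2; linarith) _).le)).mul_left Q
  have hfin : ∑' p : ℕ × J, Metric.ediam (A p) ^ D ≠ ⊤ := by
    refine ne_top_of_le_ne_top ?_ (ENNReal.tsum_le_tsum hbound)
    exact hsum2.tsum_ofReal_ne_top
  refine hausdorff_zero A hD0 hfin _ ?_
  rintro t ⟨hta, htb, hfreq⟩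
  -- infinitely many `k`
  have hfreq2 := hfreq.and_eventually (eventually_ge_atTop K₀)
  have hinf : {k : ℕ | (∃ x ∈ S, |h x - g k t| ≤ B * g k t ^ θ) ∧ K₀ ≤ k}.Infinite :=
    Nat.frequently_atTop_iff_infinite.1 hfreq2
  intro hfinite
  apply hinf
  refine (hfinite.image Prod.fst).subset ?_
  rintro k ⟨⟨x, hx, hxt⟩, hk⟩
  have hmem : t ∈ NearT h a b θ B g k x := ⟨hta, htb, hxt⟩
  obtain ⟨-, -, e3⟩ := near_bounds h hg hθ hB (hK₀ k hk).1 hmem
  have h1 : 1 ≤ h x := by linarith [(hK₀ k hk).2]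
  refine ⟨(k, ⟨x, hx, h1⟩), ?_, rfl⟩
  show t ∈ (if K₀ ≤ k then NearT h a b θ B g k x else ∅)
  rw [if_pos hk]
  exact hmem

/-- **The dimension of the exceptional set.** -/
theorem dim_family {a b c τ s θ : ℝ} {g : ℕ → ℝ → ℝ} {u : ℕ → ℝ} (hg : Family a b c τ g u)
    (hτ : 0 ≤ τ) (hs : 0 ≤ s) (hθ : θ < 1) (hθ0 : 0 ≤ θ)
    (hS : ∀ ε : ℝ, 0 < ε → ∃ C : ℝ, ∀ X : ℝ, 1 ≤ X → {x | x ∈ S ∧ h x ≤ X}.Finite ∧
      ({x | x ∈ S ∧ h x ≤ X}.ncard : ℝ) ≤ C * X ^ (s + ε)) :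
    dimH {t : ℝ | a < t ∧ t < b ∧ ∃ B : ℝ, ∃ᶠ k in atTop, ∃ x ∈ S, |h x - g k t| ≤ B * g k t ^ θ} ≤
      ENNReal.ofReal ((s + τ) / (1 - θ)) := by
  have h1θ : 0 < 1 - θ := by linarith
  have hsub : {t : ℝ | a < t ∧ t < b ∧ ∃ B : ℝ, ∃ᶠ k in atTop, ∃ x ∈ S,
      |h x - g k t| ≤ B * g k t ^ θ} ⊆ ⋃ n : ℕ, {t : ℝ | a < t ∧ t < b ∧ ∃ᶠ k in atTop, ∃ x ∈ S,
      |h x - g k t| ≤ ((n : ℝ) + 1) * g k t ^ θ} := by
    rintro t ⟨h1, h2, B, hB⟩
    obtain ⟨n, hn⟩ := exists_nat_ge B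
    refine mem_iUnion.2 ⟨n, h1, h2, hB.mono ?_⟩
    rintro k ⟨x, hx, hxt⟩
    refine ⟨x, hx, hxt.trans (mul_le_mul_of_nonneg_right (by linarith) ?_)⟩
    exact Real.rpow_nonneg (by linarith [hg.low k t h1 h2, hg.one k]) _
  refine (dimH_mono hsub).trans ?_
  rw [dimH_iUnion]
  refine iSup_le fun n => ?_
  refine le_of_forall_gt fun w hw => ?_
  have hw0 : ENNReal.ofReal ((s + τ) / (1 - θ)) ≠ ⊤ := ENNReal.ofReal_ne_top
  obtain ⟨D, hD1, hD2⟩ := ENNReal.lt_iff_exists_nnreal_btwn.1 hw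
  have hD3 : (s + τ) / (1 - θ) < (D : ℝ) := by
    have h1 := (ENNReal.toReal_lt_toReal hw0 ENNReal.coe_ne_top).2 hD1
    rw [ENNReal.toReal_ofReal (by positivity)] at h1
    exact h1
  have h2 := dim_one S h hg hτ hs hθ hθ0 (B := (n : ℝ) + 1) (by positivity) hS hD3
  exact (dimH_le_of_hausdorffMeasure_ne_top (by rw [h2]; exact ENNReal.zero_ne_top)).trans_lt hD2

end Pool.Agent.K6.H61.PW
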