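import Pool.Agent.K6.H61.PW.Dim

/-!
# Examples of families of functions

The functions `(k + 2) ^ t`, and `v_k t ^ (n_k)`, for example `t ^ (k + 1)` and `t ^ (3 ^ k)`, and all functions with
`f_k(t) / t` nondecreasing.
-/

set_option autoImplicit false

namespace Pool.Agent.K6.H61.PW

open Filter Topology

/-- the functions `(k + 2) ^ t` -/
theorem family_exp {a b : ℝ} (ha : 0 < a) :
    Family a b (Real.log 2) (1 / a) (fun k t => ((k : ℝ) + 2) ^ t) (fun k => ((k : ℝ) + 2) ^ a) where
  c_pos := Real.log_pos (by norm_num)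
  steep := by
    intro k t t' _ h2 _
    show Real.log 2 * ((k : ℝ) + 2) ^ t * (t' - t) ≤ ((k : ℝ) + 2) ^ t' - ((k : ℝ) + 2) ^ t
    have hk : (0 : ℝ) < (k : ℝ) + 2 := by positivity
    have hp : 0 < ((k : ℝ) + 2) ^ t := Real.rpow_pos_of_pos hk _
    have e1 : ((k : ℝ) + 2) ^ t' = ((k : ℝ) + 2) ^ t * ((k : ℝ) + 2) ^ (t' - t) := by
      rw [← Real.rpow_add hk]
      ring_nf
    have h3 : (t' - t) * Real.log ((k : ℝ) + 2) + 1 ≤ ((k : ℝ) + 2) ^ (t' - t) := by
      rw [Real.rpow_def_of_pos hk, mul_comm (Real.log _)]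
      exact Real.add_one_le_exp _
    have h4 : Real.log 2 ≤ Real.log ((k : ℝ) + 2) := by
      apply Real.log_le_log (by norm_num)
      have : (0 : ℝ) ≤ k := Nat.cast_nonneg k
      linarith
    have h5 : (t' - t) * Real.log 2 ≤ (t' - t) * Real.log ((k : ℝ) + 2) :=
      mul_le_mul_of_nonneg_left h4 (by linarith)
    rw [e1]
    nlinarith
  low := by
    intro k t h1 _
    exact Real.rpow_le_rpow_of_exponent_le
      (by have : (0 : ℝ) ≤ k := Nat.cast_nonneg k
          linarith) h1.le
  one := by
    intro k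
    exact Real.one_le_rpow
      (by have : (0 : ℝ) ≤ k := Nat.cast_nonneg k
          linarith) ha.le
  sum := by
    intro η hη
    have h1 : 1 < a * η := by
      rw [div_lt_iff₀ ha] at hη
      linarith
    have h2 : Summable fun k : ℕ => ((k : ℝ)) ^ (-(a * η)) :=
      Real.summable_nat_rpow.2 (by linarith)
    have h3 := (summable_nat_add_iff 2).2 h2
    refine h3.congr fun k => ?_
    have hk : (0 : ℝ) < (k : ℝ) + 2 := by positivity
    show (((k + 2 : ℕ) : ℝ)) ^ (-(a * η)) = (((k : ℝ) + 2) ^ a) ^ (-η)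
    rw [← Real.rpow_mul hk.le]
    push_cast
    ring_nf

/-- the functions `v_k t ^ (n_k)` -/
theorem family_pow {a b τ : ℝ} (ha : 0 < a) (hb : 0 < b) {v n : ℕ → ℝ} (hn : ∀ k, 1 ≤ n k)
    (hv : ∀ k, 1 ≤ v k * a ^ n k) (hs : ∀ η, τ < η → Summable fun k => (v k * a ^ n k) ^ (-η)) :
    Family a b (1 / b) τ (fun k t => v k * t ^ n k) (fun k => v k * a ^ n k) where
  c_pos := by positivity
  steep := by
    intro k t t' h1 h2 h3
    show 1 / b * (v k * t ^ n k) * (t' - t) ≤ v k * t' ^ n k - v k * t ^ n k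
    have ht : 0 < t := ha.trans h1
    have hvk : 0 < v k := by
      have h4 : 0 < a ^ n k := Real.rpow_pos_of_pos ha _
      have h5 := hv k
      by_contra hcon
      rw [not_lt] at hcon
      have := mul_nonpos_of_nonpos_of_nonneg hcon h4.le
      linarith
    have hp : 0 < t ^ n k := Real.rpow_pos_of_pos ht _
    have hx : 0 < (t' - t) / t := div_pos (by linarith) ht
    have e1 : t' ^ n k = t ^ n k * (1 + (t' - t) / t) ^ n k := by
      rw [← Real.mul_rpow ht.le (by linarith)]
      congr 1
      field_simp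
      ring
    have h4 := one_add_mul_self_le_rpow_one_add (s := (t' - t) / t) (by linarith) (hn k)
    have h5 : 1 / b * (t' - t) ≤ n k * ((t' - t) / t) := by
      have h6 : 1 / b * (t' - t) ≤ (t' - t) / t := by
        rw [one_div_mul_eq_div]
        exact div_le_div_of_nonneg_left (by linarith) ht (by linarith)
      have h7 : (t' - t) / t ≤ n k * ((t' - t) / t) :=
        le_mul_of_one_le_left hx.le (hn k)
      linarith
    have h8 : 1 / b * (t' - t) * t ^ n k ≤ t' ^ n k - t ^ n k := by
      rw [e1]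
      nlinarith
    have h9 := mul_le_mul_of_nonneg_left h8 hvk.le
    linarith
  low := by
    intro k t h1 _
    have hvk : 0 < v k := by
      have h4 : 0 < a ^ n k := Real.rpow_pos_of_pos ha _
      have h5 := hv k
      by_contra hcon
      rw [not_lt] at hcon
      have := mul_nonpos_of_nonpos_of_nonneg hcon h4.le
      linarith
    exact mul_le_mul_of_nonneg_left
      (Real.rpow_le_rpow ha.le h1.le (by linarith [hn k])) hvk.le
  one := hv
  sum := hs

/-- the functions `t ^ (n_k)`, `n_k ≥ k + 1` -/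
theorem family_npow {a b : ℝ} (ha : 1 < a) (hb : 0 < b) {n : ℕ → ℝ} (hn : ∀ k : ℕ, (k : ℝ) + 1 ≤ n k) :
    Family a b (1 / b) 0 (fun k t => t ^ n k) (fun k => a ^ n k) := by
  have ha0 : 0 < a := by linarith
  have h1 : ∀ k, 1 ≤ n k := fun k => by
    have := hn k
    have h2 : (0 : ℝ) ≤ k := Nat.cast_nonneg k
    linarith
  have h := family_pow (a := a) (b := b) (τ := 0) ha0 hb (v := fun _ => 1) (n := n) h1
    (fun k => by
      rw [one_mul]
      exact Real.one_le_rpow ha.le (by linarith [h1 k]))
    (fun η hη => by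
      have hr : a ^ (-η) < 1 := Real.rpow_lt_one_of_one_lt_of_neg ha (by linarith)
      have hr0 : 0 < a ^ (-η) := Real.rpow_pos_of_pos ha0 _
      refine Summable.of_nonneg_of_le (fun k => ?_) (fun k => ?_)
        (summable_geometric_of_lt_one hr0.le hr)
      · rw [one_mul]
        positivity
      · rw [one_mul, ← Real.rpow_mul ha0.le, ← Real.rpow_natCast, ← Real.rpow_mul ha0.le]
        apply Real.rpow_le_rpow_of_exponent_le ha.le
        have h3 := hn k
        nlinarith)
  simpa using h

/-- functions with `f_k(t) / t` nondecreasing -/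
theorem family_star {a b τ : ℝ} (ha : 0 ≤ a) (hb : 0 < b) {f : ℕ → ℝ → ℝ} {u : ℕ → ℝ}
    (hf : ∀ k t t', a < t → t < t' → t' < b → f k t / t ≤ f k t' / t')
    (hlow : ∀ k t, a < t → t < b → u k ≤ f k t) (hone : ∀ k, 1 ≤ u k)
    (hs : ∀ η, τ < η → Summable fun k => u k ^ (-η)) : Family a b (1 / b) τ f u where
  c_pos := by positivity
  steep := by
    intro k t t' h1 h2 h3
    have ht : 0 < t := lt_of_le_of_lt ha h1
    have ht' : 0 < t' := by linarith
    have hp : 0 < f k t := by linarith [hlow k t h1 (by linarith), hone k]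
    have h4 := hf k t t' h1 h2 h3
    rw [div_le_div_iff₀ ht ht'] at h4
    have h5 : f k t / t * (t' - t) ≤ f k t' - f k t := by
      rw [div_mul_eq_mul_div, div_le_iff₀ ht]
      nlinarith
    have h6 : 1 / b * f k t * (t' - t) ≤ f k t / t * (t' - t) := by
      apply mul_le_mul_of_nonneg_right _ (by linarith)
      rw [one_div_mul_eq_div]
      exact div_le_div_of_nonneg_left hp.le ht (by linarith)
    exact h6.trans h5
  low := hlow
  one := hone
  sum := hs

end Pool.Agent.K6.H61.PW
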